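import Pool.Agent.Q26.UM.CLWb
import Pool.Agent.Q97.UM.Stm22

set_option autoImplicit false

/-! Project UM16 (helper97), job CLW (helper26): the local mean of log|zeta| against the Euler product over all the
zeros, relative to every Dirichlet polynomial. -/

open Filter Topology MeasureTheory Complex
open Pool.Agent.Q97.UM Pool.Agent.Q96.UM Pool.Agent.Q151.UM

namespace Pool.Agent.Q26.UM

noncomputable section

theorem t_CLW : J_CLW := by
  classical
  rintro hTHP hSTM hD - hPMD hSAMP ⟨θ, c, C, hθ, hθ4, hc, hC, hTail⟩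
  obtain ⟨θ₁, δ₀, hθ₁, hδ₀, hT4⟩ := hTHP 4
  obtain ⟨η, hη⟩ : ∃ η, η = c / 80 := ⟨_, rfl⟩
  have hη0 : 0 < η := by rw [hη]; positivity
  obtain ⟨C2, hC2, hS2⟩ := hSTM θ c C hθ hθ4 hc hC hTail 2 η hη0 (by push_cast; rw [hη]; linarith)
  obtain ⟨θ₂, hθ₂, hθ₂', hSA⟩ := hSAMP 1 one_pos
  obtain ⟨θ₃, hθ₃, hθ₃', hPM⟩ := hPMD
  obtain ⟨B0, hB0, hB⟩ := e3_le
  have hZ0 := Z0_nonneg
  obtain ⟨θ', hθ'⟩ : ∃ θ', θ' = min (min θ₁ (θ / 2)) (min θ₂ θ₃) := ⟨_, rfl⟩
  have q1 : θ' ≤ θ₁ := by rw [hθ']; exact (min_le_left _ _).trans (min_le_left _ _)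
  have q2 : θ' ≤ θ / 2 := by rw [hθ']; exact (min_le_left _ _).trans (min_le_right _ _)
  have q3 : θ' ≤ θ₂ := by rw [hθ']; exact (min_le_right _ _).trans (min_le_left _ _)
  have q4 : θ' ≤ θ₃ := by rw [hθ']; exact (min_le_right _ _).trans (min_le_right _ _)
  have q0 : 0 < θ' := by rw [hθ']; exact lt_min (lt_min hθ₁ (by positivity)) (lt_min hθ₂ hθ₃)
  refine ⟨θ', min δ₀ θ₃, q0, lt_min hδ₀ hθ₃, fun δ hδ hδ2 => ?_⟩
  have hδa : δ ≤ δ₀ := hδ2.trans (min_le_left _ _)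
  have hδb : δ ≤ θ₃ := hδ2.trans (min_le_right _ _)
  obtain ⟨C₀, hC₀, hT'⟩ := hT4 δ hδ hδa
  obtain ⟨C3, hC3, hP'⟩ := hPM 1 1 δ (δ / 2) zero_le_one (by positivity) (by linarith)
    (by push_cast; linarith)
  refine ⟨3 * (5 * (C2 + C₀) + (4 * Z0 + B0) ^ 2 * 2 + C3), by positivity, ?_⟩
  have hbig : Tendsto (fun T : ℝ => T ^ (δ / 2)) atTop atTop := tendsto_rpow_atTop (by positivity)
  filter_upwards [hT', hS2, hSA, hP', eventually_ge_atTop (Real.exp 2), eventually_ge_atTop 16,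
    hbig.eventually_ge_atTop 2] with T h1 h2 hs hp hTe hT16 hy
  intro N hN b h hh
  obtain ⟨g1, g2⟩ := abs_le.1 hh
  have hT0 : 0 < T := by linarith
  have hT1 : 1 ≤ T := by linarith
  have hL2 : 2 ≤ Real.log T := by rw [Real.le_log_iff_exp_le hT0]; exact hTe
  have hL : 0 < Real.log T := by linarith
  have hr : 1 / Real.log T ≤ 1 := by rw [div_le_one hL]; linarith
  have hr0 : 0 < 1 / Real.log T := by positivity
  obtain ⟨X, hX⟩ : ∃ X, X = ⌊T ^ δ⌋₊ := ⟨_, rfl⟩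
  rw [← hX] at h1 ⊢
  have hXT : (X : ℝ) ≤ T ^ δ := by rw [hX]; exact Nat.floor_le (by positivity)
  have hyy : T ^ δ = T ^ (δ / 2) * T ^ (δ / 2) := by
    rw [← Real.rpow_add hT0]
    congr 1
    ring
  have hXl : T ^ (δ / 2) ≤ X := by
    have h3 : T ^ δ < X + 1 := by rw [hX]; exact Nat.lt_floor_add_one _
    rw [hyy] at h3
    nlinarith
  have hX2 : (2 : ℝ) ≤ X := hy.trans hXl
  have hlX : 0 < Real.log X := Real.log_pos (by linarith)
  have hXT1 : (X : ℝ) ≤ T := by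
    calc (X : ℝ) ≤ T ^ δ := hXT
      _ ≤ T ^ (1 : ℝ) := Real.rpow_le_rpow_of_exponent_le hT1 (by linarith)
      _ = T := Real.rpow_one T
  have hlXT : Real.log X ≤ Real.log T := Real.log_le_log (by linarith) hXT1
  have hXll : ∀ n : ℕ, 1 ≤ n → n ≤ X → Real.log n ≤ Real.log T := by
    intro n hn hnX
    refine Real.log_le_log (by exact_mod_cast hn) ?_
    calc (n : ℝ) ≤ X := by exact_mod_cast hnX
      _ ≤ T := hXT1
  have pw : ∀ {a : ℝ}, θ' ≤ a → (N : ℝ) ≤ T ^ a := fun ha =>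
    hN.trans (Real.rpow_le_rpow_of_exponent_le hT1 ha)
  have hNT : (N : ℝ) ≤ T := by
    calc (N : ℝ) ≤ T ^ θ₂ := pw q3
      _ ≤ T ^ (1 : ℝ) := Real.rpow_le_rpow_of_exponent_le hT1 (by linarith)
      _ = T := Real.rpow_one T
  -- integrability
  have hN1 : ((1 : ℕ) : ℝ) ≤ T ^ θ₁ := by
    rw [Nat.cast_one]; exact Real.one_le_rpow hT1 hθ₁.le
  obtain ⟨i4, -⟩ := h1 1 hN1 (fun _ => 1)
  simp only [dp_one, norm_one, one_pow, mul_one] at i4
  have i4' : IntervalIntegrable (fun t => Dd X t ^ 4) volume (T / 2) (4 * T) := by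
    refine i4.congr fun t _ => ?_
    show |Dd X t| ^ 4 = Dd X t ^ 4
    exact Even.pow_abs (by decide) _
  have hMe := Dd_meas X
  have iM : IntervalIntegrable (fun t => 1 + Dd X t ^ 4) volume (T / 2) (4 * T) :=
    IntervalIntegrable.add (by simp) i4'
  have i2 : IntervalIntegrable (fun t => Dd X t ^ 2) volume (T / 2) (4 * T) := by
    refine iM.mono_fun' (hMe.pow_const 2).aestronglyMeasurable (Eventually.of_forall fun t => ?_)
    show ‖Dd X t ^ 2‖ ≤ 1 + Dd X t ^ 4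
    rw [Real.norm_eq_abs, abs_of_nonneg (sq_nonneg _)]
    nlinarith [sq_nonneg (Dd X t ^ 2 - 1)]
  have i1 : IntervalIntegrable (Dd X) volume (T / 2) (4 * T) := by
    refine iM.mono_fun' hMe.aestronglyMeasurable (Eventually.of_forall fun t => ?_)
    show ‖Dd X t‖ ≤ 1 + Dd X t ^ 4
    rw [Real.norm_eq_abs, abs_le]
    constructor <;> nlinarith [sq_nonneg (Dd X t ^ 2 - 1), sq_nonneg (Dd X t - 1), sq_nonneg (Dd X t + 1)]
  have hN2 : 0 ≤ N2 N b := Pool.Agent.Q61.UM.N2_nonneg N b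
  -- part A
  have pA := partA (T := T) (h := h) (η := η) (X := X) (N := N) (b := b)
    (K := 5 / 2 * ((C2 + C₀) * T * N2 N b)) hD hη0.le hT16 hL2 hh i2 i4'
    (fun x => partK hD hT16 hL hh hNT (by positivity) (fun b' => h2 N (pw q2) b')
      (fun b' => h1 N (pw q1) b'))
  -- part B
  have pB : ∑ s ∈ H370.Zf riemannZeta T (2 * T), (mz s : ℝ) * ‖dp N b s.im‖ ^ 2 ≤
      2 * (Real.log T * (T * N2 N b)) := by
    obtain ⟨-, -, h3⟩ := hs N (pw q3) b
    have h5 := (abs_le.1 h3).2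
    have h6 : Real.log T / (2 * Real.pi) ≤ Real.log T := by
      rw [div_le_iff₀ (by positivity)]
      have := Real.pi_gt_three
      nlinarith
    have h7 : 0 ≤ T * N2 N b := by positivity
    nlinarith
  -- part C
  have pC := hp N X (pw q4) hXl hXT b (fun n => e1 X (Real.log T) n * (n : ℂ) ^ ((-h : ℝ) * I)) (by
    intro n hn
    have h3 : pc X n ≠ 0 := by
      intro h0
      apply hn
      simp only [e1, h0, zero_mul]
    by_contra hcon
    exact h3 (if_neg hcon)) (by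
    intro n
    rw [one_mul]
    by_cases hnp : n.Prime ∧ n ≤ X
    · have hn1 := hnp.1.one_le
      have h3 : ‖(n : ℂ) ^ ((-h : ℝ) * I)‖ = 1 := by
        rw [Complex.norm_natCast_cpow_of_pos (by omega)]
        simp
      rw [norm_mul, h3, mul_one]
      unfold e1
      have h5 : pc X n = 1 := if_pos hnp
      rw [h5, one_mul]
      refine (Sn_sub hL hn1).trans ?_
      have := Real.log_natCast_nonneg n
      gcongr
    · have h5 : pc X n = 0 := if_neg hnp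
      have : e1 X (Real.log T) n * (n : ℂ) ^ ((-h : ℝ) * I) = 0 := by
        simp only [e1, h5, zero_mul]
      rw [this, norm_zero]
      exact div_nonneg (Real.log_natCast_nonneg n) hlX.le)
  have eC : ∀ t : ℝ, dp X (fun n => e1 X (Real.log T) n * (n : ℂ) ^ ((-h : ℝ) * I)) t =
      dp X (e1 X (Real.log T)) (t + h) := by
    intro t
    have h3 := (hD.2.1 X (e1 X (Real.log T)) t (-h)).1
    rw [sub_neg_eq_add] at h3
    exact h3.symm
  simp only [eC, mul_one] at pC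
  obtain ⟨F, hF⟩ : ∃ F, F = H370.Zf riemannZeta T (2 * T) := ⟨_, rfl⟩
  rw [← hF] at pA pB pC ⊢
  have hFm : ∀ s ∈ F, T < s.im ∧ s.im ≤ 2 * T := by
    intro s hs
    rw [hF, H370.mem_Zf H370.good_zeta (by linarith)] at hs
    exact ⟨hs.2.2.1, hs.2.2.2.1⟩
  have sub : ∀ (f : ℝ → ℝ), IntervalIntegrable f volume (T / 2) (4 * T) → ∀ s ∈ F,
      IntervalIntegrable f volume (s.im + h - 1 / Real.log T) (s.im + h + 1 / Real.log T) := by
    intro f hf s hs
    obtain ⟨b1, b2⟩ := hFm s hs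
    refine hf.mono_set ?_
    rw [Set.uIcc_of_le (by linarith), Set.uIcc_of_le (by linarith)]
    exact Set.Icc_subset_Icc (by linarith) (by linarith)
  calc ∑ s ∈ F, (mz s : ℝ) * ((LM T (s.im + h) - EP X (s.im + h)) ^ 2 * ‖dp N b s.im‖ ^ 2)
      ≤ ∑ s ∈ F, (3 * ((mz s : ℝ) * ((Real.log T / 2 *
          ∫ t in (s.im + h - 1 / Real.log T)..(s.im + h + 1 / Real.log T), Dd X t ^ 2) *
            ‖dp N b s.im‖ ^ 2)) +
        3 * ((4 * Z0 + B0) ^ 2 * ((mz s : ℝ) * ‖dp N b s.im‖ ^ 2)) +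
        3 * ((mz s : ℝ) * (‖dp X (e1 X (Real.log T)) (s.im + h)‖ ^ 2 * ‖dp N b s.im‖ ^ 2))) := by
        refine Finset.sum_le_sum fun s hs => ?_
        have h3 := point2 hL X (sub _ i1 s hs) (sub _ i2 s hs) (hB X (Real.log T) hL hXll (s.im + h))
        have h6 : (0 : ℝ) ≤ mz s := Nat.cast_nonneg _
        have h7 := mul_le_mul_of_nonneg_left h3 (mul_nonneg h6 (sq_nonneg ‖dp N b s.im‖))
        calc (mz s : ℝ) * ((LM T (s.im + h) - EP X (s.im + h)) ^ 2 * ‖dp N b s.im‖ ^ 2) =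
            (mz s : ℝ) * ‖dp N b s.im‖ ^ 2 * (LM T (s.im + h) - EP X (s.im + h)) ^ 2 := by ring
          _ ≤ _ := h7
          _ = _ := by ring
    _ = 3 * (∑ s ∈ F, (mz s : ℝ) * ((Real.log T / 2 *
          ∫ t in (s.im + h - 1 / Real.log T)..(s.im + h + 1 / Real.log T), Dd X t ^ 2) *
            ‖dp N b s.im‖ ^ 2)) +
        3 * ((4 * Z0 + B0) ^ 2 * ∑ s ∈ F, (mz s : ℝ) * ‖dp N b s.im‖ ^ 2) +
        3 * (∑ s ∈ F, (mz s : ℝ) * (‖dp X (e1 X (Real.log T)) (s.im + h)‖ ^ 2 *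
          ‖dp N b s.im‖ ^ 2)) := by
        rw [Finset.sum_add_distrib, Finset.sum_add_distrib, Finset.mul_sum, Finset.mul_sum,
          Finset.mul_sum, Finset.mul_sum]
    _ ≤ 3 * (2 * Real.log T * (5 / 2 * ((C2 + C₀) * T * N2 N b))) +
        3 * ((4 * Z0 + B0) ^ 2 * (2 * (Real.log T * (T * N2 N b)))) +
        3 * (C3 * Real.log T * (T * N2 N b)) := by
        gcongr
    _ = _ := by ring

end

end Pool.Agent.Q26.UM
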