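import Pool.Agent.Q151.UM.CLAb

set_option autoImplicit false

/-! Project UM16 (helper97), job CLW (helper26): lemmas. -/

open Filter Topology MeasureTheory Complex
open Pool.Agent.Q97.UM Pool.Agent.Q96.UM Pool.Agent.Q151.UM

namespace Pool.Agent.Q26.UM

noncomputable section

/-- the window integral of a continuous function is continuous -/
lemma win_cont {G : ℝ → ℝ} (hG : Continuous G) (r : ℝ) :
    Continuous fun v => ∫ x in (-r)..r, G (v + x) := by
  refine intervalIntegral.continuous_parametric_intervalIntegral_of_continuous' ?_ _ _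
  exact hG.comp (continuous_fst.add continuous_snd)

/-- the order of the integrations -/
lemma fub {Φ G : ℝ → ℝ} {A B r : ℝ} (hAB : A ≤ B) (hr : 0 ≤ r)
    (hΦ : IntervalIntegrable Φ volume A B) (hG : Continuous G) :
    ∫ v in A..B, Φ v * ∫ x in (-r)..r, G (v + x) =
      ∫ x in (-r)..r, ∫ v in A..B, Φ v * G (v + x) := by
  have hr' : -r ≤ r := by linarith
  simp_rw [← intervalIntegral.integral_const_mul]
  simp only [intervalIntegral.integral_of_le hAB, intervalIntegral.integral_of_le hr']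
  refine integral_integral_swap ?_
  obtain ⟨M, hM⟩ := (isCompact_Icc (a := A - r) (b := B + r)).exists_bound_of_continuousOn
    hG.continuousOn
  have hΦ' : Integrable Φ (volume.restrict (Set.Ioc A B)) := by
    rw [intervalIntegrable_iff_integrableOn_Ioc_of_le hAB] at hΦ
    exact hΦ
  have h1 : Integrable (fun z : ℝ × ℝ => Φ z.1 * M)
      ((volume.restrict (Set.Ioc A B)).prod (volume.restrict (Set.Ioc (-r) r))) :=
    hΦ'.mul_prod (integrable_const M)
  refine Integrable.mono h1 ?_ ?_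
  · exact (hΦ'.aestronglyMeasurable.comp_fst).mul
      (hG.comp (continuous_fst.add continuous_snd)).aestronglyMeasurable
  · rw [Measure.prod_restrict]
    refine (ae_restrict_iff' (measurableSet_Ioc.prod measurableSet_Ioc)).2
      (Eventually.of_forall fun z hz => ?_)
    obtain ⟨⟨h2, h3⟩, h4, h5⟩ := hz
    simp only [Function.uncurry]
    rw [norm_mul, norm_mul]
    refine mul_le_mul_of_nonneg_left ?_ (norm_nonneg _)
    refine (hM _ ⟨by linarith, by linarith⟩).trans ?_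
    exact le_abs_self M

/-- coefficients of the average of the squares minus the squares -/
def e3 (X : ℕ) (L : ℝ) (n : ℕ) : ℂ := c2 X n * (Sn L n - 1)

lemma dp_e3 (X : ℕ) (L t : ℝ) :
    dp (X ^ 2) (fun n => c2 X n * Sn L n) t - dp (X ^ 2) (c2 X) t = dp (X ^ 2) (e3 X L) t := by
  unfold dp e3
  rw [← Finset.sum_sub_distrib]
  refine Finset.sum_congr rfl fun n _ => ?_
  ring

lemma e3_le : ∃ B : ℝ, 0 ≤ B ∧ ∀ (X : ℕ) (L : ℝ), 0 < L → (∀ n : ℕ, 1 ≤ n → n ≤ X → Real.log n ≤ L) →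
    ∀ t : ℝ, ‖dp (X ^ 2) (e3 X L) t‖ ≤ B := by
  classical
  obtain ⟨B, hB1, hB⟩ := Pool.Agent.Q178.UM.PR.sum_upto
  refine ⟨2 * B, by linarith, fun X L hL hX t => ?_⟩
  have h1 := hB (1 / L) 1 ((Finset.Icc 1 X).filter Nat.Prime) (by positivity) one_pos
    (fun p hp => (Finset.mem_filter.1 hp).2)
  rw [mul_one] at h1
  have h2 : ((Finset.Icc 1 X).filter Nat.Prime).filter (fun p : ℕ => 1 / L * Real.log p ≤ 1) =
      (Finset.Icc 1 X).filter Nat.Prime := by
    rw [Finset.filter_eq_self]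
    intro p hp
    obtain ⟨h3, -⟩ := Finset.mem_filter.1 hp
    obtain ⟨h4, h5⟩ := Finset.mem_Icc.1 h3
    have := hX p h4 h5
    rw [one_div, inv_mul_le_iff₀ hL, mul_one]
    exact this
  rw [h2] at h1
  unfold dp
  rw [sum_sq X (fun n => e3 X L n * (n : ℂ) ^ (-(1 / 2 + t * I)))]
  · refine (norm_sum_le _ _).trans ?_
    calc _ ≤ ∑ p ∈ (Finset.Icc 1 X).filter Nat.Prime, 2 * (1 / L * Real.log p / p) := by
          refine Finset.sum_le_sum fun p hp => ?_
          obtain ⟨h3, h4⟩ := Finset.mem_filter.1 hp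
          obtain ⟨h5, h6⟩ := Finset.mem_Icc.1 h3
          have hp0 : (0 : ℝ) < p := by exact_mod_cast h5
          have h7 : c2 X (p ^ 2) = 1 := if_pos ⟨p, h4, h6, rfl⟩
          have h8 : ‖((p ^ 2 : ℕ) : ℂ) ^ (-(1 / 2 + t * I))‖ = (p : ℝ)⁻¹ := by
            rw [Complex.norm_natCast_cpow_of_pos (by positivity)]
            have : (-(1 / 2 + (t : ℂ) * I)).re = -(1 / 2) := by simp
            rw [this]
            push_cast
            rw [← Real.rpow_natCast, ← Real.rpow_mul hp0.le]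
            norm_num
            exact Real.rpow_neg_one _
          rw [norm_mul, h8]
          unfold e3
          rw [h7, one_mul]
          have h9 := Sn_sub hL (n := p ^ 2) (by nlinarith)
          have h10 : Real.log ((p ^ 2 : ℕ) : ℝ) = 2 * Real.log p := by
            push_cast
            rw [Real.log_pow]
            norm_num
          rw [h10] at h9
          calc ‖Sn L (p ^ 2) - 1‖ * (p : ℝ)⁻¹ ≤ 2 * Real.log p / L * (p : ℝ)⁻¹ := by gcongr
            _ = _ := by ring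
      _ = 2 * ∑ p ∈ (Finset.Icc 1 X).filter Nat.Prime, (1 / L * Real.log p / p) := by
          rw [Finset.mul_sum]
      _ ≤ 2 * B := by linarith
  · intro n hn
    have : c2 X n = 0 := if_neg hn
    unfold e3
    rw [this, zero_mul, zero_mul]

/-- the pointwise bound -/
lemma point2 {T γ B : ℝ} (hL : 0 < Real.log T) (X : ℕ)
    (h1 : IntervalIntegrable (Dd X) volume (γ - 1 / Real.log T) (γ + 1 / Real.log T))
    (h2 : IntervalIntegrable (fun t => Dd X t ^ 2) volume (γ - 1 / Real.log T) (γ + 1 / Real.log T))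
    (hB : ‖dp (X ^ 2) (e3 X (Real.log T)) γ‖ ≤ B) :
    (LM T γ - EP X γ) ^ 2 ≤
      3 * (Real.log T / 2 * (∫ t in (γ - 1 / Real.log T)..(γ + 1 / Real.log T), Dd X t ^ 2) +
        (4 * Z0 + B) ^ 2 + ‖dp X (e1 X (Real.log T)) γ‖ ^ 2) := by
  obtain ⟨L, hLe⟩ : ∃ L, L = Real.log T := ⟨_, rfl⟩
  rw [← hLe] at hL h1 h2 hB ⊢
  have hr : 0 < 1 / L := by positivity
  have hcd : γ - 1 / L < γ + 1 / L := by linarith
  have hlen : γ + 1 / L - (γ - 1 / L) = 2 / L := by ring
  have iE : ∀ f : ℝ → ℝ, Continuous f → IntervalIntegrable f volume (γ - 1 / L) (γ + 1 / L) :=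
    fun f hf => hf.intervalIntegrable _ _
  have cP : Continuous fun u => (dp X (pc X) u).re := Complex.continuous_re.comp (dp_cont _ _)
  have cQ : Continuous fun u => (dp (X ^ 2) (c2 X) u).re := Complex.continuous_re.comp (dp_cont _ _)
  have a1 : LM T γ = L / 2 * (∫ u in (γ - 1 / L)..(γ + 1 / L), Dd X u) +
      L / 2 * ∫ u in (γ - 1 / L)..(γ + 1 / L), EP X u := by
    unfold LM
    rw [← hLe, ← mul_add, ← intervalIntegral.integral_add h1 (iE _ (EP_cont X))]
    congr 1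
    refine intervalIntegral.integral_congr fun u _ => ?_
    show Real.log ‖zt u‖ = Dd X u + EP X u
    unfold Dd
    ring
  have a2 : L / 2 * (∫ u in (γ - 1 / L)..(γ + 1 / L), EP X u) =
      L / 2 * (∫ u in (γ - 1 / L)..(γ + 1 / L),
        (EP X u - (dp X (pc X) u).re - 1 / 2 * (dp (X ^ 2) (c2 X) u).re)) +
      (dp X (fun n => pc X n * Sn L n) γ).re +
      1 / 2 * (dp (X ^ 2) (fun n => c2 X n * Sn L n) γ).re := by
    have i1 := iE (fun u => EP X u - (dp X (pc X) u).re) ((EP_cont X).sub cP)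
    have i2 := iE (fun u => 1 / 2 * (dp (X ^ 2) (c2 X) u).re) (continuous_const.mul cQ)
    rw [← avg_re, ← avg_re, intervalIntegral.integral_sub i1 i2,
      intervalIntegral.integral_sub (iE _ (EP_cont X)) (iE _ cP),
      intervalIntegral.integral_const_mul]
    ring
  have a3 : |L / 2 * (∫ u in (γ - 1 / L)..(γ + 1 / L),
        (EP X u - (dp X (pc X) u).re - 1 / 2 * (dp (X ^ 2) (c2 X) u).re))| ≤ 2 * Z0 := by
    rw [abs_mul, abs_of_pos (by positivity : 0 < L / 2)]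
    have h3 : ‖∫ u in (γ - 1 / L)..(γ + 1 / L),
        (EP X u - (dp X (pc X) u).re - 1 / 2 * (dp (X ^ 2) (c2 X) u).re)‖ ≤
        2 * Z0 * |γ + 1 / L - (γ - 1 / L)| :=
      intervalIntegral.norm_integral_le_of_norm_le_const fun u _ => EP_lin X u
    rw [hlen, abs_of_pos (by positivity : 0 < 2 / L), Real.norm_eq_abs] at h3
    calc L / 2 * _ ≤ L / 2 * (2 * Z0 * (2 / L)) := by gcongr
      _ = 2 * Z0 := by field_simp
  have a4 : (L / 2 * (∫ u in (γ - 1 / L)..(γ + 1 / L), Dd X u)) ^ 2 ≤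
      L / 2 * ∫ t in (γ - 1 / L)..(γ + 1 / L), Dd X t ^ 2 := by
    have h3 := cs hcd h1 h2
    rw [hlen] at h3
    calc (L / 2 * (∫ u in (γ - 1 / L)..(γ + 1 / L), Dd X u)) ^ 2 =
        (L / 2) ^ 2 * (∫ u in (γ - 1 / L)..(γ + 1 / L), Dd X u) ^ 2 := by ring
      _ ≤ (L / 2) ^ 2 * (2 / L * ∫ t in (γ - 1 / L)..(γ + 1 / L), Dd X t ^ 2) := by gcongr
      _ = _ := by field_simp
  have a5 := congrArg Complex.re (dp_e1 X L γ)
  rw [Complex.sub_re] at a5
  have a6 := Complex.abs_re_le_norm (dp X (e1 X L) γ)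
  have a7 := congrArg Complex.re (dp_e3 X L γ)
  rw [Complex.sub_re] at a7
  have a8 := (Complex.abs_re_le_norm (dp (X ^ 2) (e3 X L) γ)).trans hB
  have a9 := EP_lin X γ
  obtain ⟨A, hA⟩ : ∃ A, A = L / 2 * (∫ u in (γ - 1 / L)..(γ + 1 / L), Dd X u) := ⟨_, rfl⟩
  obtain ⟨E, hE⟩ : ∃ E, E = L / 2 * (∫ u in (γ - 1 / L)..(γ + 1 / L),
        (EP X u - (dp X (pc X) u).re - 1 / 2 * (dp (X ^ 2) (c2 X) u).re)) := ⟨_, rfl⟩
  obtain ⟨E', hE'⟩ : ∃ E', E' = EP X γ - (dp X (pc X) γ).re - 1 / 2 * (dp (X ^ 2) (c2 X) γ).re :=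
    ⟨_, rfl⟩
  obtain ⟨U, hU⟩ : ∃ U, U = (dp X (e1 X L) γ).re := ⟨_, rfl⟩
  obtain ⟨V, hV⟩ : ∃ V, V = (dp (X ^ 2) (e3 X L) γ).re := ⟨_, rfl⟩
  rw [← hA] at a1 a4
  rw [← hE] at a2 a3
  rw [← hU] at a5 a6
  rw [← hV] at a7 a8
  rw [← hE'] at a9
  have b1 : LM T γ - EP X γ = A + (E - E' + 1 / 2 * V) + U := by
    rw [a1, a2]
    linarith
  rw [b1]
  have b2 : (E - E' + 1 / 2 * V) ^ 2 ≤ (4 * Z0 + B) ^ 2 := by
    rw [← sq_abs]
    refine pow_le_pow_left₀ (abs_nonneg _) ?_ 2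
    have hZ := Z0_nonneg
    obtain ⟨c1, c2⟩ := abs_le.1 a3
    obtain ⟨c3, c4⟩ := abs_le.1 a9
    obtain ⟨c5, c6⟩ := abs_le.1 a8
    rw [abs_le]
    constructor <;> linarith
  have b3 : U ^ 2 ≤ ‖dp X (e1 X L) γ‖ ^ 2 := by
    rw [← sq_abs]
    exact pow_le_pow_left₀ (abs_nonneg _) a6 2
  obtain ⟨W, hW⟩ : ∃ W, W = E - E' + 1 / 2 * V := ⟨_, rfl⟩
  rw [← hW] at b2 ⊢
  nlinarith [sq_nonneg (A - W), sq_nonneg (A - U), sq_nonneg (W - U)]

end

end Pool.Agent.Q26.UM
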