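import Pool.Agent.Q26.UM.CLWa
import Pool.Agent.Q151.UM.CLA

set_option autoImplicit false

/-! Project UM16 (helper97), job CLW (helper26): the main term. -/

open Filter Topology MeasureTheory Complex
open Pool.Agent.Q97.UM Pool.Agent.Q96.UM Pool.Agent.Q151.UM

namespace Pool.Agent.Q26.UM

noncomputable section

/-- the moments of the majorant, one polynomial -/
lemma partK1 {T h x C2 C₀ η : ℝ} {X N : ℕ} {c : ℕ → ℂ} (hD : S_DPM) (hT16 : 16 ≤ T)
    (hL : 0 < Real.log T) (hh : |h| ≤ 1)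
    (h2 : ∀ b : ℕ → ℂ, ∫ t in (T / 4)..(8 * T), SS η T t ^ 2 * ‖dp N b t‖ ^ 2 ≤ C2 * T * N2 N b)
    (h4 : ∀ b : ℕ → ℂ,
      IntervalIntegrable (fun t => |Dd X t| ^ 4 * ‖dp N b t‖ ^ 2) volume (T / 2) (4 * T) ∧
      ∫ t in (T / 2)..(4 * T), |Dd X t| ^ 4 * ‖dp N b t‖ ^ 2 ≤ C₀ * T * N2 N b) :
    IntervalIntegrable (fun v => (SS η T v ^ 2 + Dd X (v + h) ^ 4) * ‖dp N c (v + x)‖ ^ 2) volume
      (3 * T / 4) (3 * T) ∧
    ∫ v in (3 * T / 4)..(3 * T), (SS η T v ^ 2 + Dd X (v + h) ^ 4) * ‖dp N c (v + x)‖ ^ 2 ≤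
      (C2 + C₀) * T * N2 N c := by
  obtain ⟨c1, c2⟩ := abs_le.1 hh
  have cS : Continuous (SS η T) := Pool.Agent.Q257.UM.SS_cont hL.le
  have hc : ∀ c : ℕ → ℂ, Continuous (dp N c) := fun c => (hD.2.2 N c 0).2
  have hAB : 3 * T / 4 ≤ 3 * T := by linarith
  obtain ⟨u1, n1⟩ : ∃ c' : ℕ → ℂ, (∀ v, dp N c (v + x) = dp N c' v) ∧ N2 N c' = N2 N c := by
    refine ⟨fun n => c n * (n : ℂ) ^ ((-x : ℝ) * I), fun v => ?_, (hD.2.1 N c 0 (-x)).2⟩
    have := (hD.2.1 N c v (-x)).1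
    rw [sub_neg_eq_add] at this
    exact this
  obtain ⟨u2, n2⟩ : ∃ c' : ℕ → ℂ, (∀ v, dp N c (v - h + x) = dp N c' v) ∧ N2 N c' = N2 N c := by
    refine ⟨fun n => c n * (n : ℂ) ^ ((h - x : ℝ) * I), fun v => ?_, (hD.2.1 N c 0 (h - x)).2⟩
    have := (hD.2.1 N c v (h - x)).1
    rw [← this]
    congr 1
    ring
  obtain ⟨n1, m1⟩ := n1
  obtain ⟨n2, m2⟩ := n2
  have e1 : (fun v => SS η T v ^ 2 * ‖dp N c (v + x)‖ ^ 2) = fun v => SS η T v ^ 2 * ‖dp N u1 v‖ ^ 2 := by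
    funext v
    rw [n1]
  have k1 : Continuous fun v => SS η T v ^ 2 * ‖dp N c (v + x)‖ ^ 2 := by
    rw [e1]
    exact (cS.pow 2).mul ((hc u1).norm.pow 2)
  have i1 : IntervalIntegrable (fun v => SS η T v ^ 2 * ‖dp N c (v + x)‖ ^ 2) volume (3 * T / 4) (3 * T) :=
    k1.intervalIntegrable _ _
  have b1 : ∫ v in (3 * T / 4)..(3 * T), SS η T v ^ 2 * ‖dp N c (v + x)‖ ^ 2 ≤ C2 * T * N2 N c := by
    rw [← m1]
    refine le_trans ?_ (h2 u1)
    rw [e1]
    refine intervalIntegral.integral_mono_interval (by linarith) hAB (by linarith)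
      (Eventually.of_forall fun v => by positivity) ?_
    exact ((cS.pow 2).mul ((hc u1).norm.pow 2)).intervalIntegrable _ _
  -- the second part
  obtain ⟨j1, j2⟩ := h4 u2
  have e2 : (fun v => Dd X (v + h) ^ 4 * ‖dp N c (v + x)‖ ^ 2) =
      fun v => (fun u => |Dd X u| ^ 4 * ‖dp N u2 u‖ ^ 2) (v + h) := by
    funext v
    simp only
    rw [← n2, Even.pow_abs (by decide)]
    congr 4
    ring
  have i2' : IntervalIntegrable (fun u => |Dd X u| ^ 4 * ‖dp N u2 u‖ ^ 2) volume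
      (3 * T / 4 + h) (3 * T + h) := by
    refine j1.mono_set ?_
    rw [Set.uIcc_of_le (by linarith), Set.uIcc_of_le (by linarith)]
    exact Set.Icc_subset_Icc (by linarith) (by linarith)
  have i2 : IntervalIntegrable (fun v => Dd X (v + h) ^ 4 * ‖dp N c (v + x)‖ ^ 2) volume
      (3 * T / 4) (3 * T) := by
    rw [e2]
    have := i2'.comp_add_right h
    rwa [add_sub_cancel_right, add_sub_cancel_right] at this
  have b2 : ∫ v in (3 * T / 4)..(3 * T), Dd X (v + h) ^ 4 * ‖dp N c (v + x)‖ ^ 2 ≤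
      C₀ * T * N2 N c := by
    rw [← m2]
    refine le_trans ?_ j2
    rw [e2, intervalIntegral.integral_comp_add_right (fun u => |Dd X u| ^ 4 * ‖dp N u2 u‖ ^ 2) h]
    exact intervalIntegral.integral_mono_interval (by linarith) (by linarith) (by linarith)
      (Eventually.of_forall fun v => by positivity) j1
  have e3 : (fun v => (SS η T v ^ 2 + Dd X (v + h) ^ 4) * ‖dp N c (v + x)‖ ^ 2) =
      fun v => SS η T v ^ 2 * ‖dp N c (v + x)‖ ^ 2 + Dd X (v + h) ^ 4 * ‖dp N c (v + x)‖ ^ 2 := by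
    funext v
    ring
  rw [e3]
  refine ⟨i1.add i2, ?_⟩
  rw [intervalIntegral.integral_add i1 i2]
  linarith

/-- the moments of the majorant -/
lemma partK {T h x C2 C₀ η : ℝ} {X N : ℕ} {b : ℕ → ℂ} (hD : S_DPM) (hT16 : 16 ≤ T)
    (hL : 0 < Real.log T) (hh : |h| ≤ 1) (hNT : (N : ℝ) ≤ T) (hC : 0 ≤ C2 + C₀)
    (h2 : ∀ b : ℕ → ℂ, ∫ t in (T / 4)..(8 * T), SS η T t ^ 2 * ‖dp N b t‖ ^ 2 ≤ C2 * T * N2 N b)
    (h4 : ∀ b : ℕ → ℂ,
      IntervalIntegrable (fun t => |Dd X t| ^ 4 * ‖dp N b t‖ ^ 2) volume (T / 2) (4 * T) ∧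
      ∫ t in (T / 2)..(4 * T), |Dd X t| ^ 4 * ‖dp N b t‖ ^ 2 ≤ C₀ * T * N2 N b) :
    ∫ v in (3 * T / 4)..(3 * T), (SS η T v ^ 2 + Dd X (v + h) ^ 4) *
      Pool.Agent.Q257.UM.Gm N b (Real.log T) (v + x) ≤ 5 / 2 * ((C2 + C₀) * T * N2 N b) := by
  obtain ⟨i1, b1⟩ := partK1 (c := b) (x := x) hD hT16 hL hh h2 h4
  obtain ⟨i2, b2⟩ := partK1 (c := Pool.Agent.Q61.UM.bd b) (x := x) hD hT16 hL hh h2 h4
  have hT0 : 0 < T := by linarith
  have hN2 : N2 N (Pool.Agent.Q61.UM.bd b) ≤ Real.log T ^ 2 * N2 N b := by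
    refine (Pool.Agent.Q61.UM.N2_bd N b).trans ?_
    have hn0 : 0 ≤ Real.log N := Real.log_natCast_nonneg N
    have h6 : Real.log N ≤ Real.log T := by
      rcases Nat.eq_zero_or_pos N with h | h
      · rw [h]; simp only [Nat.cast_zero, Real.log_zero]; exact hL.le
      · exact Real.log_le_log (by exact_mod_cast h) hNT
    have h7 : Real.log N ^ 2 ≤ Real.log T ^ 2 := by gcongr
    exact mul_le_mul_of_nonneg_right h7 (Pool.Agent.Q61.UM.N2_nonneg N b)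
  have e : (fun v => (SS η T v ^ 2 + Dd X (v + h) ^ 4) *
      Pool.Agent.Q257.UM.Gm N b (Real.log T) (v + x)) = fun v =>
      3 / 2 * ((SS η T v ^ 2 + Dd X (v + h) ^ 4) * ‖dp N b (v + x)‖ ^ 2) +
      (Real.log T)⁻¹ ^ 2 * ((SS η T v ^ 2 + Dd X (v + h) ^ 4) *
        ‖dp N (Pool.Agent.Q61.UM.bd b) (v + x)‖ ^ 2) := by
    funext v
    unfold Pool.Agent.Q257.UM.Gm
    ring
  rw [e, intervalIntegral.integral_add (i1.const_mul _) (i2.const_mul _),
    intervalIntegral.integral_const_mul, intervalIntegral.integral_const_mul]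
  have b3 : (Real.log T)⁻¹ ^ 2 * ((C2 + C₀) * T * N2 N (Pool.Agent.Q61.UM.bd b)) ≤
      (C2 + C₀) * T * N2 N b := by
    calc (Real.log T)⁻¹ ^ 2 * ((C2 + C₀) * T * N2 N (Pool.Agent.Q61.UM.bd b))
        ≤ (Real.log T)⁻¹ ^ 2 * ((C2 + C₀) * T * (Real.log T ^ 2 * N2 N b)) := by gcongr
      _ = (C2 + C₀) * T * N2 N b := by field_simp
  have b4 : (Real.log T)⁻¹ ^ 2 * (∫ v in (3 * T / 4)..(3 * T),
      (SS η T v ^ 2 + Dd X (v + h) ^ 4) * ‖dp N (Pool.Agent.Q61.UM.bd b) (v + x)‖ ^ 2) ≤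
      (Real.log T)⁻¹ ^ 2 * ((C2 + C₀) * T * N2 N (Pool.Agent.Q61.UM.bd b)) := by gcongr
  linarith

/-- the main term -/
lemma partA {T h η K : ℝ} {X N : ℕ} {b : ℕ → ℂ} (hD : S_DPM) (hη : 0 ≤ η) (hT16 : 16 ≤ T)
    (hL : 2 ≤ Real.log T) (hh : |h| ≤ 1)
    (i2 : IntervalIntegrable (fun t => Dd X t ^ 2) volume (T / 2) (4 * T))
    (i4 : IntervalIntegrable (fun t => Dd X t ^ 4) volume (T / 2) (4 * T))
    (hK : ∀ x : ℝ, ∫ v in (3 * T / 4)..(3 * T), (SS η T v ^ 2 + Dd X (v + h) ^ 4) *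
      Pool.Agent.Q257.UM.Gm N b (Real.log T) (v + x) ≤ K) :
    ∑ s ∈ H370.Zf riemannZeta T (2 * T), (mz s : ℝ) * ((Real.log T / 2 *
      ∫ t in (s.im + h - 1 / Real.log T)..(s.im + h + 1 / Real.log T), Dd X t ^ 2) *
        ‖dp N b s.im‖ ^ 2) ≤ 2 * Real.log T * K := by
  classical
  obtain ⟨c1, c2⟩ := abs_le.1 hh
  have hL0 : 0 < Real.log T := by linarith
  obtain ⟨L, hLe⟩ : ∃ L, L = Real.log T := ⟨_, rfl⟩
  obtain ⟨r, hre⟩ : ∃ r, r = 1 / L := ⟨_, rfl⟩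
  rw [← hLe] at hL hL0 hK ⊢
  rw [← hre]
  have hr0 : 0 < r := by rw [hre]; positivity
  have hr1 : r ≤ 1 := by rw [hre, div_le_one hL0]; linarith
  have hLr : L * r = 1 := by rw [hre]; field_simp
  obtain ⟨KG, hKG⟩ : ∃ KG : ℝ → ℝ, KG = fun v => ∫ x in (-r)..r, Pool.Agent.Q257.UM.Gm N b L (v + x) :=
    ⟨_, rfl⟩
  have hGc := Pool.Agent.Q257.UM.Gm_cont hD N b L
  have hKc : Continuous KG := by rw [hKG]; exact win_cont hGc r
  have hK0 : ∀ v, 0 ≤ KG v := fun v => by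
    rw [hKG]
    exact intervalIntegral.integral_nonneg (by linarith) fun x _ =>
      Pool.Agent.Q257.UM.Gm_nonneg _ _ _ _
  have hAB : 3 * T / 4 ≤ 3 * T := by linarith
  have sh : ∀ f : ℝ → ℝ, IntervalIntegrable f volume (T / 2) (4 * T) →
      IntervalIntegrable (fun v => f (v + h)) volume (3 * T / 4) (3 * T) := by
    intro f hf
    have h1 : IntervalIntegrable f volume (3 * T / 4 + h) (3 * T + h) := by
      refine hf.mono_set ?_
      rw [Set.uIcc_of_le (by linarith), Set.uIcc_of_le (by linarith)]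
      exact Set.Icc_subset_Icc (by linarith) (by linarith)
    have := h1.comp_add_right h
    rwa [add_sub_cancel_right, add_sub_cancel_right] at this
  have i2s := sh _ i2
  have i4s := sh _ i4
  have cS : Continuous (SS η T) := Pool.Agent.Q257.UM.SS_cont (by rw [← hLe]; exact hL0.le)
  have S0 : ∀ t, 0 ≤ SS η T t := fun t => Pool.Agent.Q257.UM.SS_nonneg η T t
  obtain ⟨F, hF⟩ : ∃ F, F = H370.Zf riemannZeta T (2 * T) := ⟨_, rfl⟩
  rw [← hF]
  have hFm : ∀ s ∈ F, s ∈ ZD T ∧ T < s.im ∧ s.im ≤ 2 * T := by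
    intro s hs
    rw [hF, H370.mem_Zf H370.good_zeta (by linarith)] at hs
    obtain ⟨a1, a2, a3, a4, a5⟩ := hs
    exact ⟨(Pool.Agent.Q257.UM.mem_ZD hT16 s).2 ⟨a1, a2, by linarith, by linarith, a5⟩, a3, a4⟩
  have hW : ∀ s ∈ F, 3 * T / 4 ≤ s.im - r ∧ s.im + r ≤ 3 * T := by
    intro s hs
    obtain ⟨-, b1, b2⟩ := hFm s hs
    constructor <;> linarith
  have sub : ∀ (f : ℝ → ℝ), IntervalIntegrable f volume (3 * T / 4) (3 * T) → ∀ s ∈ F,
      IntervalIntegrable f volume (s.im - r) (s.im + r) := by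
    intro f hf s hs
    obtain ⟨b1, b2⟩ := hW s hs
    refine hf.mono_set ?_
    rw [Set.uIcc_of_le (by linarith), Set.uIcc_of_le hAB]
    exact Set.Icc_subset_Icc b1 b2
  have iDK : IntervalIntegrable (fun v => Dd X (v + h) ^ 2 * KG v) volume (3 * T / 4) (3 * T) :=
    i2s.mul_continuousOn hKc.continuousOn
  have iDKc : IntervalIntegrable (fun v => (Dd X (v + h) ^ 2 * (L * KG v))) volume (3 * T / 4) (3 * T) :=
    i2s.mul_continuousOn (hKc.const_smul L).continuousOn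
  -- step 1: every zero
  have st1 : ∀ s ∈ F, (mz s : ℝ) * ((L / 2 * ∫ t in (s.im + h - r)..(s.im + h + r), Dd X t ^ 2) *
      ‖dp N b s.im‖ ^ 2) ≤ L ^ 2 / 2 * ((mz s : ℝ) * ∫ v in (3 * T / 4)..(3 * T),
        Set.indicator (Set.Icc (s.im - r) (s.im + r)) (fun v => Dd X (v + h) ^ 2 * KG v) v) := by
    intro s hs
    obtain ⟨b1, b2⟩ := hW s hs
    rw [Pool.Agent.Q61.UM.ind_in b1 (by linarith) b2]
    have e1 : ∫ t in (s.im + h - r)..(s.im + h + r), Dd X t ^ 2 =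
        ∫ v in (s.im - r)..(s.im + r), Dd X (v + h) ^ 2 := by
      rw [intervalIntegral.integral_comp_add_right (fun t => Dd X t ^ 2) h]
      congr 1 <;> ring
    have e2 : (∫ v in (s.im - r)..(s.im + r), Dd X (v + h) ^ 2) * ‖dp N b s.im‖ ^ 2 ≤
        L * ∫ v in (s.im - r)..(s.im + r), Dd X (v + h) ^ 2 * KG v := by
      rw [mul_comm, ← intervalIntegral.integral_const_mul, ← intervalIntegral.integral_const_mul]
      refine intervalIntegral.integral_mono_on (by linarith) ((sub _ i2s s hs).const_mul _)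
        ((sub _ iDK s hs).const_mul _) fun v hv => ?_
      obtain ⟨hv1, hv2⟩ := hv
      have h3 : |v - s.im| ≤ 1 / L := by
        rw [← hre, abs_le]
        constructor <;> linarith
      have h5 := Pool.Agent.Q257.UM.sob hD N b hL0 h3
      have h6 : ∫ w in (v - 1 / L)..(v + 1 / L), Pool.Agent.Q257.UM.Gm N b L w = KG v := by
        rw [hKG, ← hre]
        simp only
        rw [intervalIntegral.integral_comp_add_left (fun w => Pool.Agent.Q257.UM.Gm N b L w) v]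
        rw [← sub_eq_add_neg]
      rw [h6] at h5
      calc ‖dp N b s.im‖ ^ 2 * Dd X (v + h) ^ 2 ≤ (L * KG v) * Dd X (v + h) ^ 2 := by gcongr
        _ = L * (Dd X (v + h) ^ 2 * KG v) := by ring
    rw [e1]
    calc (mz s : ℝ) * ((L / 2 * ∫ v in (s.im - r)..(s.im + r), Dd X (v + h) ^ 2) *
          ‖dp N b s.im‖ ^ 2) = (mz s : ℝ) * (L / 2) *
          ((∫ v in (s.im - r)..(s.im + r), Dd X (v + h) ^ 2) * ‖dp N b s.im‖ ^ 2) := by ring
      _ ≤ (mz s : ℝ) * (L / 2) *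
          (L * ∫ v in (s.im - r)..(s.im + r), Dd X (v + h) ^ 2 * KG v) := by gcongr
      _ = _ := by ring
  refine (Finset.sum_le_sum st1).trans ?_
  obtain ⟨w1, w2⟩ := win' iDK F (fun s => (mz s : ℝ)) r
  rw [← Finset.mul_sum, ← w2]
  have iΦ : IntervalIntegrable (fun v => SS η T v ^ 2 + Dd X (v + h) ^ 4) volume (3 * T / 4) (3 * T) :=
    ((cS.pow 2).intervalIntegrable _ _).add i4s
  have st2 : ∫ t in (3 * T / 4)..(3 * T), (∑ s ∈ F.filter (fun s => |s.im - t| ≤ r), (mz s : ℝ)) *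
      (Dd X (t + h) ^ 2 * KG t) ≤
      ∫ t in (3 * T / 4)..(3 * T), 2 * ((SS η T t ^ 2 + Dd X (t + h) ^ 4) * KG t) := by
    refine intervalIntegral.integral_mono_on hAB w1
      ((iΦ.mul_continuousOn hKc.continuousOn).const_mul _) fun t _ => ?_
    have h3 : ∑ s ∈ F.filter (fun s => |s.im - t| ≤ r), (mz s : ℝ) ≤ 4 * SS η T t := by
      refine le_trans ?_ (Pool.Agent.Q257.UM.cnt_le (T := T) (t := t) hη (by rw [← hLe]; exact hL0))
      refine Finset.sum_le_sum_of_subset_of_nonneg (fun s hs => ?_) fun _ _ _ => Nat.cast_nonneg _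
      rw [Finset.mem_filter] at hs ⊢
      exact ⟨(hFm s hs.1).1, by rw [← hLe, ← hre]; exact hs.2⟩
    have h5 := S0 t
    have h6 := hK0 t
    calc (∑ s ∈ F.filter (fun s => |s.im - t| ≤ r), (mz s : ℝ)) * (Dd X (t + h) ^ 2 * KG t)
        ≤ 4 * SS η T t * (Dd X (t + h) ^ 2 * KG t) := by gcongr
      _ = (4 * SS η T t * Dd X (t + h) ^ 2) * KG t := by ring
      _ ≤ (2 * (SS η T t ^ 2 + Dd X (t + h) ^ 4)) * KG t := by
        refine mul_le_mul_of_nonneg_right ?_ h6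
        nlinarith [sq_nonneg (SS η T t - Dd X (t + h) ^ 2)]
      _ = _ := by ring
  have st3 : ∫ t in (3 * T / 4)..(3 * T), (SS η T t ^ 2 + Dd X (t + h) ^ 4) * KG t ≤ K * (2 * r) := by
    rw [hKG, fub hAB hr0.le iΦ hGc]
    have h3 : ‖∫ x in (-r)..r, ∫ v in (3 * T / 4)..(3 * T), (SS η T v ^ 2 + Dd X (v + h) ^ 4) *
        Pool.Agent.Q257.UM.Gm N b L (v + x)‖ ≤ K * |r - -r| := by
      refine intervalIntegral.norm_integral_le_of_norm_le_const fun x _ => ?_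
      rw [Real.norm_of_nonneg]
      · exact hK x
      · refine intervalIntegral.integral_nonneg hAB fun v _ => ?_
        have := Pool.Agent.Q257.UM.Gm_nonneg N b L (v + x)
        positivity
    have h5 : |r - -r| = 2 * r := by
      have : r - -r = 2 * r := by ring
      rw [this, abs_of_pos (by positivity)]
    rw [h5] at h3
    exact (le_abs_self _).trans h3
  rw [intervalIntegral.integral_const_mul] at st2
  calc L ^ 2 / 2 * _ ≤ L ^ 2 / 2 * (2 * (K * (2 * r))) := by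
        refine mul_le_mul_of_nonneg_left (st2.trans ?_) (by positivity)
        linarith
    _ = 2 * L * K * (L * r) := by ring
    _ = 2 * L * K := by rw [hLr, mul_one]

end

end Pool.Agent.Q26.UM
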